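import Mathlib

set_option autoImplicit false

open Matrix

namespace Pool.Agent.Results.MP_89e789_an.NoThreshold

/-- Data of a multigrid hierarchy; `P l`, `R l` act between levels `l` and `l + 1`. -/
structure Hier where
  n : ℕ → ℕ
  A : ∀ l, Matrix (Fin (n l)) (Fin (n l)) ℝ
  P : ∀ l, Matrix (Fin (n (l + 1))) (Fin (n l)) ℝ
  R : ∀ l, Matrix (Fin (n l)) (Fin (n (l + 1))) ℝ
  Λ : ℕ → ℝ

noncomputable def rho {k : ℕ} (M : Matrix (Fin k) (Fin k) ℝ) : ℝ := (spectralRadius ℝ M).toReal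

noncomputable def Hier.proj (H : Hier) (l : ℕ) : Matrix (Fin (H.n l)) (Fin (H.n (l + 1))) ℝ :=
  (H.A l)⁻¹ * H.R l * H.A (l + 1)

noncomputable def Hier.K (H : Hier) (l : ℕ) : Matrix (Fin (H.n l)) (Fin (H.n l)) ℝ :=
  1 - (H.Λ l)⁻¹ • H.A l

/-- V-cycle error operator. -/
noncomputable def Hier.E (H : Hier) (m : ℕ) : ∀ l, Matrix (Fin (H.n l)) (Fin (H.n l)) ℝ
  | 0 => 0
  | l + 1 => H.K (l + 1) ^ m * (1 - H.P l * (1 - H.E m l) * H.proj l) * H.K (l + 1) ^ m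

/-- (G3), (R) and (A2) at every level. -/
def Hier.Adm (H : Hier) (r CR C α : ℝ) : Prop :=
  (∀ l, (H.A l).PosDef) ∧ ∀ l, Function.Injective (H.P l).mulVec ∧ H.R l = r • (H.P l)ᵀ ∧
    H.R l * H.A (l + 1) * H.P l = (2 : ℝ) • H.A l ∧
    rho (H.A (l + 1)) ≤ H.Λ (l + 1) ∧ H.Λ (l + 1) ≤ CR * rho (H.A (l + 1)) ∧
    ∀ v, |((1 - H.P l * H.proj l) *ᵥ v) ⬝ᵥ H.A (l + 1) *ᵥ v| ≤
      C ^ (2 * α) / rho (H.A (l + 1)) ^ α * ((H.A (l + 1) *ᵥ v) ⬝ᵥ H.A (l + 1) *ᵥ v) ^ α *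
        (v ⬝ᵥ H.A (l + 1) *ᵥ v) ^ (1 - α)

def dg (l : ℕ) (a b : ℝ) : Matrix (Fin (l + 1)) (Fin (l + 1)) ℝ :=
  diagonal (Fin.cons a fun _ => b)

lemma dg_mulVec (l : ℕ) (a b : ℝ) (v : Fin (l + 1) → ℝ) :
    dg l a b *ᵥ v = Fin.cons (a * v 0) fun j => b * v j.succ := by
  ext i
  refine Fin.cases ?_ (fun j => ?_) i <;> simp [dg, mulVec_diagonal]

lemma dg_mul (l : ℕ) (a b c d : ℝ) : dg l a b * dg l c d = dg l (a * c) (b * d) := by
  rw [dg, dg, dg, diagonal_mul_diagonal]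
  congr 1
  ext i
  refine Fin.cases ?_ (fun j => ?_) i <;> simp

lemma dg_one (l : ℕ) : dg l 1 1 = 1 := by
  rw [dg, ← diagonal_one]
  congr 1
  ext i
  refine Fin.cases ?_ (fun j => ?_) i <;> simp

lemma dg_pow (l : ℕ) (a b : ℝ) (m : ℕ) : dg l a b ^ m = dg l (a ^ m) (b ^ m) := by
  induction m with
  | zero => simp [dg_one]
  | succ m ih => rw [pow_succ, ih, dg_mul, pow_succ, pow_succ]

lemma dg_inv (l : ℕ) {a : ℝ} (ha : a ≠ 0) : (dg l a 1)⁻¹ = dg l a⁻¹ 1 :=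
  inv_eq_right_inv (by rw [dg_mul, mul_inv_cancel₀ ha, one_mul, dg_one])

lemma rho_dg (l : ℕ) {a : ℝ} (h0 : 0 ≤ a) (h1 : a ≤ 1) : rho (dg (l + 1) a 1) = 1 := by
  have : spectralRadius ℝ (dg (l + 1) a 1) = 1 := by
    rw [spectralRadius, dg, spectrum_diagonal]
    apply le_antisymm
    · refine iSup₂_le ?_
      rintro _ ⟨i, rfl⟩
      refine Fin.cases ?_ (fun j => ?_) i
      · simp only [Fin.cons_zero, ENNReal.coe_le_one_iff]
        rw [← NNReal.coe_le_coe]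
        simpa [abs_of_nonneg h0] using h1
      · simp
    · exact le_iSup₂_of_le (1 : ℝ) ⟨Fin.succ 0, by simp⟩ (by simp)
  rw [rho, this, ENNReal.toReal_one]

def pr (l : ℕ) (a b : ℝ) : Matrix (Fin (l + 2)) (Fin (l + 1)) ℝ :=
  of (Fin.cons (Fin.cons a 0) (Fin.cons (Fin.cons b 0)
    fun i => Fin.cons 0 fun j => if i = j then 2 else 0))

lemma pr_mulVec (l : ℕ) (a b : ℝ) (v : Fin (l + 1) → ℝ) :
    pr l a b *ᵥ v = Fin.cons (a * v 0) (Fin.cons (b * v 0) fun j => 2 * v j.succ) := by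
  ext i
  refine Fin.cases ?_ (fun j => Fin.cases ?_ (fun k => ?_) j) i <;>
    simp [pr, mulVec, dotProduct, Fin.sum_univ_succ]

lemma prT_mulVec (l : ℕ) (a b : ℝ) (v : Fin (l + 2) → ℝ) :
    (pr l a b)ᵀ *ᵥ v = Fin.cons (a * v 0 + b * v 1) fun j => 2 * v j.succ.succ := by
  ext i
  refine Fin.cases ?_ (fun j => ?_) i <;>
    simp [pr, mulVec, dotProduct, Fin.sum_univ_succ]

noncomputable abbrev ex (η : ℝ) : Hier where
  n l := l + 1
  A l := dg l (η ^ 2) 1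
  P l := pr l √(2 * (1 + η)) (η * √(2 * (1 - η)))
  R l := (1 / 2 : ℝ) • (pr l √(2 * (1 + η)) (η * √(2 * (1 - η))))ᵀ
  Λ _ := 1

lemma proj_mulVec {η : ℝ} (h0 : 0 < η) (l : ℕ) (v : Fin (l + 2) → ℝ) :
    (ex η).proj l *ᵥ v = Fin.cons ((√(2 * (1 + η)) * v 0 + η⁻¹ * √(2 * (1 - η)) * v 1) / 2)
      fun j => v j.succ.succ := by
  show ((dg l (η ^ 2) 1)⁻¹ * ((1 / 2 : ℝ) • (pr l √(2 * (1 + η)) (η * √(2 * (1 - η))))ᵀ)
    * dg (l + 1) (η ^ 2) 1) *ᵥ v = _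
  rw [← mulVec_mulVec, ← mulVec_mulVec, dg_inv l (by positivity), smul_mulVec, prT_mulVec,
    dg_mulVec, dg_mulVec]
  ext i
  refine Fin.cases ?_ (fun j => ?_) i
  · have : (Fin.cons (η ^ 2 * v 0) (fun j => 1 * v j.succ) : Fin (l + 2) → ℝ) 1 = v 1 := by
      rw [← Fin.succ_zero_eq_one, Fin.cons_succ, one_mul]
    simp only [Fin.cons_zero, Pi.smul_apply, smul_eq_mul, this]
    field_simp
  · simp

lemma adm {η : ℝ} (h0 : 0 < η) (h1 : η ≤ 1) : (ex η).Adm (1 / 2) 1 4 (1 / 2) := by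
  obtain ⟨a, ha⟩ : ∃ a, a = √(2 * (1 + η)) := ⟨_, rfl⟩
  obtain ⟨b, hb⟩ : ∃ b, b = √(2 * (1 - η)) := ⟨_, rfl⟩
  have a2 : a ^ 2 = 2 * (1 + η) := by rw [ha]; exact Real.sq_sqrt (by positivity)
  have b2 : b ^ 2 = 2 * (1 - η) := by rw [hb]; exact Real.sq_sqrt (by linarith)
  have a0 : 0 < a := by rw [ha]; positivity
  have b0 : 0 ≤ b := by rw [hb]; positivity
  have hρ : ∀ l, rho ((ex η).A (l + 1)) = 1 := fun l =>
    rho_dg l (by positivity) (pow_le_one₀ h0.le h1)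
  refine ⟨fun l => ?_, fun l => ⟨?_, rfl, ?_, (hρ l).le, by rw [hρ]; simp, fun v => ?_⟩⟩
  · refine posDef_diagonal_iff.2 fun i => ?_
    refine Fin.cases ?_ (fun j => ?_) i
    · simpa using by positivity
    · simp
  · intro v w h
    change pr l _ _ *ᵥ v = pr l _ _ *ᵥ w at h
    rw [pr_mulVec, pr_mulVec, ← ha] at h
    ext i
    refine Fin.cases ?_ (fun j => ?_) i
    · simpa [a0.ne'] using congrFun h 0
    · simpa using congrFun h j.succ.succ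
  · refine ext_iff_mulVec.2 fun v => ?_
    show ((1 / 2 : ℝ) • (pr l √(2 * (1 + η)) (η * √(2 * (1 - η))))ᵀ * dg (l + 1) (η ^ 2) 1
      * pr l √(2 * (1 + η)) (η * √(2 * (1 - η)))) *ᵥ v = ((2 : ℝ) • dg l (η ^ 2) 1) *ᵥ v
    rw [← mulVec_mulVec, ← mulVec_mulVec, smul_mulVec, smul_mulVec, prT_mulVec, pr_mulVec,
      dg_mulVec, dg_mulVec, ← ha, ← hb]
    ext i
    refine Fin.cases ?_ (fun j => ?_) i
    · simp only [← Fin.succ_zero_eq_one, Fin.cons_succ, Fin.cons_zero, Pi.smul_apply,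
        smul_eq_mul]
      linear_combination (η ^ 2 * v 0 / 2) * a2 + (η ^ 2 * v 0 / 2) * b2
    · simp
  · rw [hρ, sub_mulVec, one_mulVec, ← mulVec_mulVec, proj_mulVec h0]
    change |(v - pr l _ _ *ᵥ _) ⬝ᵥ dg (l + 1) _ _ *ᵥ v| ≤ _ * ((dg (l + 1) _ _ *ᵥ v) ⬝ᵥ
      dg (l + 1) _ _ *ᵥ v) ^ _ * (v ⬝ᵥ dg (l + 1) _ _ *ᵥ v) ^ _
    rw [pr_mulVec, dg_mulVec, ← ha, ← hb]
    obtain ⟨s, hs⟩ : ∃ s, s = ∑ j : Fin l, v j.succ.succ * v j.succ.succ := ⟨_, rfl⟩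
    have s0 : 0 ≤ s := by rw [hs]; exact Finset.sum_nonneg fun j _ => mul_self_nonneg _
    have e : ∑ j : Fin l, (v j.succ.succ - 2 * v j.succ.succ) * v j.succ.succ = -s := by
      rw [hs, ← Finset.sum_neg_distrib]
      exact Finset.sum_congr rfl fun j _ => by ring
    simp only [dotProduct, Fin.sum_univ_succ, Pi.sub_apply, Fin.cons_zero, Fin.cons_succ, one_mul,
      e, ← hs, Fin.succ_zero_eq_one]
    obtain ⟨x, hx⟩ : ∃ x, x = η * v 0 := ⟨_, rfl⟩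
    obtain ⟨y, hy⟩ : ∃ y, y = v 1 := ⟨_, rfl⟩
    rw [← hy]
    have e1 : (v 0 - a * ((a * v 0 + η⁻¹ * b * y) / 2)) * (η ^ 2 * v 0) +
        ((y - η * b * ((a * v 0 + η⁻¹ * b * y) / 2)) * y + -s)
        = -(η * x ^ 2) + η * y ^ 2 - a * b * (x * y) - s := by
      rw [hx]
      field_simp
      linear_combination (-η ^ 2 * v 0 ^ 2) * a2 - y ^ 2 * b2
    have e2 : η ^ 2 * v 0 * (η ^ 2 * v 0) + (y * y + s) = (η * x) ^ 2 + y ^ 2 + s := by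
      rw [hx]; ring
    have e3 : v 0 * (η ^ 2 * v 0) + (y * y + s) = x ^ 2 + y ^ 2 + s := by rw [hx]; ring
    rw [e1, e2, e3]
    norm_num
    rw [← Real.sqrt_eq_rpow, ← Real.sqrt_eq_rpow]
    obtain ⟨p, hp⟩ : ∃ p, p = √((η * x) ^ 2 + y ^ 2 + s) := ⟨_, rfl⟩
    obtain ⟨q, hq⟩ : ∃ q, q = √(x ^ 2 + y ^ 2 + s) := ⟨_, rfl⟩
    rw [← hp, ← hq]
    have p0 : 0 ≤ p := by rw [hp]; positivity
    have q0 : 0 ≤ q := by rw [hq]; positivity
    have p2 : p ^ 2 = (η * x) ^ 2 + y ^ 2 + s := by rw [hp]; exact Real.sq_sqrt (by positivity)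
    have q2 : q ^ 2 = x ^ 2 + y ^ 2 + s := by rw [hq]; exact Real.sq_sqrt (by positivity)
    have hxq : |x| ≤ q := abs_le_of_sq_le_sq (by nlinarith [sq_nonneg y]) q0
    have hxp : η * |x| ≤ p := by
      have : |η * x| ≤ p := abs_le_of_sq_le_sq (by nlinarith [sq_nonneg y]) p0
      rwa [abs_mul, abs_of_pos h0] at this
    have hyp : |y| ≤ p := abs_le_of_sq_le_sq (by nlinarith [sq_nonneg (η * x)]) p0
    have hpq : p ≤ q := by
      refine abs_le_of_sq_le_sq' ?_ q0 |>.2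
      have : η ^ 2 ≤ 1 := pow_le_one₀ h0.le h1
      nlinarith [sq_nonneg x]
    have ab : a * b ≤ 2 := by
      refine abs_le_of_sq_le_sq' ?_ (by norm_num) |>.2
      rw [mul_pow, a2, b2]; nlinarith
    have t1 : η * x ^ 2 ≤ p * q := by
      rw [← sq_abs x, pow_two, ← mul_assoc]
      exact mul_le_mul hxp hxq (abs_nonneg _) p0
    have t2 : |a * b * (x * y)| ≤ 2 * (p * q) := by
      rw [abs_mul, abs_mul x, abs_of_nonneg (mul_nonneg a0.le b0), mul_comm p]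
      exact mul_le_mul ab (mul_le_mul hxq hyp (abs_nonneg _) q0) (by positivity) (by norm_num)
    have t3 : y ^ 2 + s ≤ p * q := by nlinarith [sq_nonneg (η * x)]
    have t4 : η * y ^ 2 ≤ y ^ 2 := by nlinarith [sq_nonneg y]
    have t5 : 0 ≤ η * y ^ 2 := by positivity
    have t6 : 0 ≤ η * x ^ 2 := by positivity
    have t7 := abs_le.1 t2
    rw [abs_le]
    constructor <;> linarith [sq_nonneg y, t7.1, t7.2]

noncomputable def f (η q : ℝ) : ℕ → ℝ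
  | 0 => 0
  | l + 1 => q * (η + (1 + η) * f η q l)

lemma E_eq {η : ℝ} (h0 : 0 < η) {m : ℕ} (hm : 1 ≤ m) (l : ℕ) :
    (ex η).E m l = dg l (-f η (((1 - η ^ 2) ^ m) ^ 2) l) 0 := by
  induction l with
  | zero =>
    refine ext_iff_mulVec.2 fun v => ?_
    rw [dg_mulVec]
    ext i
    refine Fin.cases ?_ (fun j => ?_) i <;> simp [Hier.E, f]
  | succ l ih =>
    have hK : (ex η).K (l + 1) ^ m = dg (l + 1) ((1 - η ^ 2) ^ m) 0 := by
      have : (ex η).K (l + 1) = dg (l + 1) (1 - η ^ 2) 0 := by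
        refine ext_iff_mulVec.2 fun v => ?_
        show (1 - (1 : ℝ)⁻¹ • dg (l + 1) (η ^ 2) 1) *ᵥ v = _
        rw [sub_mulVec, smul_mulVec, one_mulVec, dg_mulVec, dg_mulVec]
        ext i
        refine Fin.cases ?_ (fun j => ?_) i <;> simp
        ring
      rw [this]
      exact (dg_pow _ _ _ _).trans (by rw [zero_pow (by omega)])
    refine ext_iff_mulVec.2 fun v => ?_
    rw [Hier.E, hK, ih, ← mulVec_mulVec, ← mulVec_mulVec, sub_mulVec, one_mulVec,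
      ← mulVec_mulVec, ← mulVec_mulVec, sub_mulVec, one_mulVec, proj_mulVec h0]
    change dg (l + 1) _ _ *ᵥ (_ - pr l _ _ *ᵥ (_ - dg l _ _ *ᵥ _)) = dg (l + 1) _ _ *ᵥ v
    have a2 : √(2 * (1 + η)) ^ 2 = 2 * (1 + η) := Real.sq_sqrt (by positivity)
    simp only [pr_mulVec, dg_mulVec]
    ext i
    refine Fin.cases ?_ (fun j => ?_) i
    · simp only [← Fin.succ_zero_eq_one, Fin.cons_succ, Fin.cons_zero, Pi.sub_apply, f]
      linear_combination (-((1 - η ^ 2) ^ m) ^ 2 * v 0 / 2 *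
        (1 + f η (((1 - η ^ 2) ^ m) ^ 2) l)) * a2
    · simp

lemma f_ge {η q : ℝ} (h0 : 0 < η) (hq : 0 ≤ q) (h : 1 ≤ q * (1 + η)) (l : ℕ) :
    l * (q * η) ≤ f η q l := by
  induction l with
  | zero => simp [f]
  | succ l ih =>
    have : 0 ≤ f η q l := le_trans (by positivity) ih
    simp only [f]
    push_cast
    nlinarith

theorem result (m : ℕ) (hm : 1 ≤ m) (B : ℝ) : ∃ H : Hier, H.Adm (1 / 2) 1 4 (1 / 2) ∧
    ∃ L, 1 ≤ L ∧ ∃ (v : Fin (H.n L) → ℝ) (μ : ℝ), v ≠ 0 ∧ B ≤ μ ∧ H.E m L *ᵥ v = (-μ) • v := by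
  obtain ⟨η, hη⟩ : ∃ η : ℝ, η = 1 / (4 * m) := ⟨_, rfl⟩
  have m1 : (1 : ℝ) ≤ m := by exact_mod_cast hm
  have h0 : 0 < η := by rw [hη]; positivity
  have h4 : 4 * m * η = 1 := by rw [hη]; field_simp
  have h1 : η ≤ 1 / 4 := by nlinarith
  obtain ⟨q, hq⟩ : ∃ q, q = ((1 - η ^ 2) ^ m) ^ 2 := ⟨_, rfl⟩
  have hb : 1 - η / 2 ≤ q := by
    have := one_add_mul_le_pow (a := -η ^ 2) (by nlinarith) (m * 2)
    rw [hq, ← pow_mul]
    push_cast at this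
    rw [← sub_eq_add_neg] at this
    nlinarith
  have q0 : 0 < q := by linarith
  obtain ⟨L, hL⟩ := exists_nat_ge (B / (q * η))
  refine ⟨ex η, adm h0 (by linarith), L + 1, by omega, Fin.cons 1 0, f η q (L + 1),
    fun h => by simpa using congrFun h 0, ?_, ?_⟩
  · have := f_ge h0 q0.le (by nlinarith) (L + 1)
    rw [div_le_iff₀ (by positivity)] at hL
    push_cast at this
    nlinarith [mul_pos q0 h0]
  · rw [E_eq h0 hm, ← hq, dg_mulVec]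
    ext i
    refine Fin.cases ?_ (fun j => ?_) i <;> simp

end Pool.Agent.Results.MP_89e789_an.NoThreshold
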